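import Pool.Agent.H11.NL.Mn

/-!
# The group is generated by the loxodromic element
-/

set_option autoImplicit false

open Filter Topology

namespace Pool.Agent.H11.NL

variable {X : Type*} [PseudoMetricSpace X] {G : Type*} [Group G] [MulAction G X] [IsIsometricSMul G X]

/-- **Theorem**: if all elements of `G` are conjugate to powers of `a`, and `a` is loxodromic, then `G = ⟨a⟩` -/
theorem all_mem {δ : ℝ} (hX : Hyp4 δ X) {a : G} (hC : ∀ g : G, ∃ k : ℤ, IsConj g (a ^ k)) {o : X}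
    (ha : 0 < sl o a) (y : G) : y ∈ Subgroup.zpowers a := by
  obtain ⟨k0, hk0, hsmall⟩ := exists_power (δ := δ) o ha
  obtain ⟨h, hh⟩ : ∃ h, h = a ^ k0 := ⟨_, rfl⟩
  rw [← hh] at hsmall
  have hcl : ∀ {y : G} {C : ℝ}, (∃ᶠ n in atTop, gp o ((y * h ^ n) • o) (h⁻¹ ^ n • o) ≤ C) →
      y ∈ Subgroup.zpowers a := fun hf => claim hX hC ha hk0 hh hsmall hf
  by_contra hy
  have hδ := hyp_nonneg hX o
  have hslh : 0 < sl o h := by
    rw [hh, sl_pow]
    have : (0 : ℝ) < k0 := Nat.cast_pos.2 hk0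
    positivity
  have hev : ∀ z : G, z ∉ Subgroup.zpowers a → ∀ C : ℝ,
      ∀ᶠ n in atTop, C < gp o ((z * h ^ n) • o) (h⁻¹ ^ n • o) := by
    intro z hz C
    by_contra hcon
    rw [not_eventually] at hcon
    exact hz (hcl (hcon.mono fun n hn => not_lt.1 hn))
  have hyi : y⁻¹ ∉ Subgroup.zpowers a := fun h => hy (inv_inv y ▸ Subgroup.inv_mem _ h)
  obtain ⟨C0, hC0⟩ : ∃ C0, C0 = gp o (h⁻¹ • o) (h • o) + 2 * δ := ⟨_, rfl⟩
  have hPQ : ∀ n : ℕ, 1 ≤ n → gp o (h⁻¹ ^ n • o) (h ^ n • o) ≤ C0 := by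
    intro n hn
    obtain ⟨m, rfl⟩ : ∃ m, n = m + 1 := ⟨n - 1, by omega⟩
    rw [hC0]
    exact prod_two hX hsmall m m
  -- the square
  have hsq : y ^ 2 ∈ Subgroup.zpowers a := by
    refine hcl (C := C0 + δ) (Eventually.frequently ?_)
    filter_upwards [hev y hy (C0 + 2 * δ + dist o (y • o)),
      hev y⁻¹ hyi (C0 + 2 * δ + dist o (y • o)), eventually_ge_atTop 1] with n a1 a2 a3
    have b0 := hPQ n a3
    -- `y² hⁿ o` is close to `y h⁻ⁿ o`
    have b1 : C0 + 2 * δ < gp o ((y ^ 2 * h ^ n) • o) ((y * h⁻¹ ^ n) • o) := by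
      have e1 : gp o ((y ^ 2 * h ^ n) • o) ((y * h⁻¹ ^ n) • o) =
          gp (y⁻¹ • o) ((y * h ^ n) • o) (h⁻¹ ^ n • o) := by
        rw [pow_two, mul_assoc, mul_smul y, mul_smul y (h⁻¹ ^ n), gp_smul']
      have e2 := gp_base o (y⁻¹ • o) ((y * h ^ n) • o) (h⁻¹ ^ n • o)
      rw [dist_inv_smul] at e2
      rw [e1]
      linarith
    -- `hⁿ o` is close to `y h⁻ⁿ o`
    have b2 : C0 + 2 * δ < gp o (h ^ n • o) ((y * h⁻¹ ^ n) • o) := by
      have e1 : gp o (h ^ n • o) ((y * h⁻¹ ^ n) • o) =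
          gp (y⁻¹ • o) ((y⁻¹ * h ^ n) • o) (h⁻¹ ^ n • o) := by
        have : h ^ n • o = y • ((y⁻¹ * h ^ n) • o) := by
          rw [← mul_smul, mul_inv_cancel_left]
        rw [this, mul_smul y (h⁻¹ ^ n), gp_smul']
      have e2 := gp_base o (y⁻¹ • o) ((y⁻¹ * h ^ n) • o) (h⁻¹ ^ n • o)
      rw [dist_inv_smul] at e2
      rw [e1]
      linarith
    have b3 : C0 + δ < gp o ((y ^ 2 * h ^ n) • o) (h ^ n • o) := by
      have c1 := gp_min hX o ((y ^ 2 * h ^ n) • o) ((y * h⁻¹ ^ n) • o) (h ^ n • o)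
      have c2 : C0 + 2 * δ < min (gp o ((y ^ 2 * h ^ n) • o) ((y * h⁻¹ ^ n) • o))
          (gp o ((y * h⁻¹ ^ n) • o) (h ^ n • o)) := lt_min b1 (by rw [gp_comm]; exact b2)
      linarith
    rw [gp_comm]
    exact gp_le_of hX b0 b3
  obtain ⟨j, hj⟩ := Subgroup.mem_zpowers_iff.1 hsq
  rcases eq_or_ne j 0 with h0 | h0
  · rw [h0, zpow_zero] at hj
    have h1 := sl_pow o y 2
    rw [← hj] at h1
    have h2 := sl_le o (1 : G)
    rw [one_smul, dist_self] at h2
    have h3 := sl_nonneg o (1 : G)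
    have h4 : sl o y = 0 := by
      push_cast at h1
      linarith
    refine hy ?_
    rw [zero_one hC ha h4]
    exact Subgroup.one_mem _
  · -- `y` commutes with `h ^ (|j| m)`
    have hcy : ∀ m : ℕ, Commute y (h ^ (j.natAbs * m)) := by
      intro m
      have c1 : Commute y (a ^ j) := by
        rw [hj]
        exact (Commute.refl y).pow_right 2
      have c2 : Commute y (a ^ j.natAbs) := by
        rcases Int.natAbs_eq j with h | h
        · rw [h, zpow_natCast] at c1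
          exact c1
        · rw [h, zpow_neg, zpow_natCast] at c1
          exact Commute.inv_right_iff.1 c1
      rw [hh, ← pow_mul, ← mul_assoc, mul_comm k0, mul_assoc, pow_mul]
      exact c2.pow_right _
    refine hy (hcl (C := C0 + dist o (y • o)) ?_)
    rw [frequently_atTop]
    intro N
    have hjpos : 0 < j.natAbs := Int.natAbs_pos.2 h0
    refine ⟨j.natAbs * (N + 1), ?_, ?_⟩
    · nlinarith
    · have hn1 : 1 ≤ j.natAbs * (N + 1) := by nlinarith
      have b0 := hPQ _ hn1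
      have b1 := gp_move o (h⁻¹ ^ (j.natAbs * (N + 1)) • o) ((y * h ^ (j.natAbs * (N + 1))) • o)
        (h ^ (j.natAbs * (N + 1)) • o)
      have b2 : dist ((y * h ^ (j.natAbs * (N + 1))) • o) (h ^ (j.natAbs * (N + 1)) • o) =
          dist o (y • o) := by
        rw [(hcy (N + 1)).eq, mul_smul, dist_smul, dist_comm]
      rw [gp_comm]
      linarith

end Pool.Agent.H11.NL
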