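import Pool.Agent.H11.NL.Lo

/-!
# Sequences of isometries which almost fix two ends; their translation number is a homomorphism
-/

set_option autoImplicit false

open Filter Topology

namespace Pool.Agent.H11.NL

variable {X : Type*} [PseudoMetricSpace X] {G : Type*} [Group G] [MulAction G X] [IsIsometricSMul G X]

/-- bounded sequences of isometries which almost fix `P n` and `Q n` -/
structure EE (ω : Ultrafilter ℕ) (P Q : ℕ → X) (o : X) (g : ℕ → G) : Prop where
  bdd : ∃ M, ∀ᶠ n in ω, dist o (g n • o) ≤ M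
  tp : ∀ R, ∀ᶠ n in ω, R ≤ gp o (g n • P n) (P n)
  tq : ∀ R, ∀ᶠ n in ω, R ≤ gp o (g n • Q n) (Q n)

variable {ω : Ultrafilter ℕ} {P Q : ℕ → X} {o : X} {δ : ℝ}

lemma EE_aux_mul (h : Hyp4 δ X) {P : ℕ → X} {g k : ℕ → G} (hb : ∃ M, ∀ᶠ n in ω, dist o (g n • o) ≤ M)
    (h1 : ∀ R, ∀ᶠ n in ω, R ≤ gp o (g n • P n) (P n)) (h2 : ∀ R, ∀ᶠ n in ω, R ≤ gp o (k n • P n) (P n))
    (R : ℝ) : ∀ᶠ n in ω, R ≤ gp o ((g n * k n) • P n) (P n) := by
  obtain ⟨M, hM⟩ := hb
  filter_upwards [hM, h1 (R + δ), h2 (R + M + δ)] with n a1 a2 a3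
  have b1 := gp_min h o ((g n * k n) • P n) (g n • P n) (P n)
  have b2 : gp o ((g n * k n) • P n) (g n • P n) = gp ((g n)⁻¹ • o) (k n • P n) (P n) := by
    rw [mul_smul, gp_smul']
  have b3 := gp_base o ((g n)⁻¹ • o) (k n • P n) (P n)
  rw [dist_inv_smul] at b3
  have b4 : R + δ ≤ min (gp o ((g n * k n) • P n) (g n • P n)) (gp o (g n • P n) (P n)) := by
    refine le_min ?_ a2
    rw [b2]
    linarith
  linarith

lemma EE_aux_inv {P : ℕ → X} {g : ℕ → G} (hb : ∃ M, ∀ᶠ n in ω, dist o (g n • o) ≤ M)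
    (h1 : ∀ R, ∀ᶠ n in ω, R ≤ gp o (g n • P n) (P n))
    (R : ℝ) : ∀ᶠ n in ω, R ≤ gp o ((g n)⁻¹ • P n) (P n) := by
  obtain ⟨M, hM⟩ := hb
  filter_upwards [hM, h1 (R + M)] with n a1 a2
  have b1 : gp (g n • o) (P n) (g n • P n) = gp o ((g n)⁻¹ • P n) (P n) := by
    rw [← gp_smul (g n) o ((g n)⁻¹ • P n) (P n), smul_inv_smul]
  have b2 := gp_base o (g n • o) (g n • P n) (P n)
  rw [← b1, gp_comm]
  linarith

/-- the group of these sequences -/
def Esub (ω : Ultrafilter ℕ) (P Q : ℕ → X) (o : X) (G : Type*) [Group G] [MulAction G X]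
    [IsIsometricSMul G X] (h : Hyp4 δ X) (hP : ∀ R, ∀ᶠ n in ω, R ≤ dist o (P n))
    (hQ : ∀ R, ∀ᶠ n in ω, R ≤ dist o (Q n)) : Subgroup (ℕ → G) where
  carrier := {g | EE ω P Q o g}
  one_mem' := ⟨⟨0, Eventually.of_forall fun n => by simp⟩,
    fun R => (hP R).mono fun n hn => by simpa [gp_self] using hn,
    fun R => (hQ R).mono fun n hn => by simpa [gp_self] using hn⟩
  mul_mem' := fun {g k} hg hk => by
    refine ⟨?_, fun R => EE_aux_mul h hg.bdd hg.tp hk.tp R, fun R => EE_aux_mul h hg.bdd hg.tq hk.tq R⟩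
    obtain ⟨M, hM⟩ := hg.bdd
    obtain ⟨M', hM'⟩ := hk.bdd
    refine ⟨M + M', ?_⟩
    filter_upwards [hM, hM'] with n a1 a2
    have b1 := dist_triangle o (g n • o) ((g n * k n) • o)
    have b2 : dist (g n • o) ((g n * k n) • o) = dist o (k n • o) := by rw [mul_smul, dist_smul]
    show dist o ((g n * k n) • o) ≤ M + M'
    linarith
  inv_mem' := fun {g} hg => by
    refine ⟨?_, fun R => EE_aux_inv hg.bdd hg.tp R, fun R => EE_aux_inv hg.bdd hg.tq R⟩
    obtain ⟨M, hM⟩ := hg.bdd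
    refine ⟨M, hM.mono fun n hn => ?_⟩
    show dist o ((g n)⁻¹ • o) ≤ M
    rwa [dist_inv_smul]

/-- bounded real sequences converge along an ultrafilter -/
lemma ultra_lim {f : ℕ → ℝ} {M : ℝ} (hf : ∀ᶠ n in ω, |f n| ≤ M) : ∃ l, Tendsto f ω (𝓝 l) := by
  have h1 : Set.Icc (-M) M ∈ ω.map f := by
    rw [Ultrafilter.mem_map]
    filter_upwards [hf] with n hn
    exact abs_le.1 hn
  obtain ⟨l, -, hl⟩ := isCompact_Icc.ultrafilter_le_nhds (ω.map f) (le_principal_iff.2 h1)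
  exact ⟨l, hl⟩

/-- bounded natural sequences are constant along an ultrafilter -/
lemma ultra_const {j : ℕ → ℕ} {J : ℕ} (hj : ∀ᶠ n in ω, j n ≤ J) : ∃ k, ∀ᶠ n in ω, j n = k := by
  have h1 : (⋃ k ∈ Set.Iic J, {n | j n = k}) ∈ ω := by
    filter_upwards [hj] with n hn
    simp only [Set.mem_iUnion, Set.mem_ofPred_eq, exists_prop, exists_eq_right', Set.mem_Iic]
    exact hn
  rw [Ultrafilter.finite_biUnion_mem_iff (Set.finite_Iic J)] at h1
  obtain ⟨k, -, hk⟩ := h1
  exact ⟨k, hk⟩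

/-- **the key step**: two sequences in the group with the same discrete stable length agree up to inversion -/
theorem key_step (h : Hyp4 δ X) (hP : ∀ R, ∀ᶠ n in ω, R ≤ dist o (P n))
    (hQ : ∀ R, ∀ᶠ n in ω, R ≤ dist o (Q n)) {C : ℝ} (hPQ : ∀ᶠ n in ω, gp o (P n) (Q n) ≤ C)
    {lam : ℝ} (hlam : 0 < lam) (hval : ∀ g : G, ∃ k : ℕ, sl o g = k * lam)
    (hz : ∀ g : G, sl o g = 0 → g = 1) {r s : ℕ → G} (hr : EE ω P Q o r) (hs : EE ω P Q o s)
    (hrl : ∀ᶠ n in ω, sl o (r n) = lam) (hsl : ∀ᶠ n in ω, sl o (s n) = lam) :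
    (∀ᶠ n in ω, r n = s n) ∨ ∀ᶠ n in ω, r n = (s n)⁻¹ := by
  obtain ⟨E, hE⟩ : ∃ E : Subgroup (ℕ → G), E = Esub ω P Q o G h hP hQ := ⟨_, rfl⟩
  have mem : ∀ g : ℕ → G, g ∈ E ↔ EE ω P Q o g := fun g => by rw [hE]; rfl
  have hδ := hyp_nonneg h o
  have hC : 0 ≤ C := by
    obtain ⟨n, hn⟩ := hPQ.exists
    exact (gp_nonneg _ _ _).trans hn
  -- the translation function
  have hlim : ∀ g : E, ∃ l, Tendsto (fun n => bz (P n) o ((g : ℕ → G) n)) ω (𝓝 l) := by
    intro g
    obtain ⟨M, hM⟩ := ((mem g).1 g.2).bdd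
    exact ultra_lim (M := M) (hM.mono fun n hn => (abs_bz_le _ _ _).trans hn)
  choose f hf using hlim
  have hqm : ∀ x y : E, |f (x * y) - f x - f y| ≤ 2 * δ := by
    intro x y
    have h1 := (((hf (x * y)).sub (hf x)).sub (hf y)).abs
    refine le_of_tendsto h1 ?_
    obtain ⟨M, hM⟩ := ((mem x).1 x.2).bdd
    obtain ⟨M', hM'⟩ := ((mem y).1 y.2).bdd
    filter_upwards [hM, hM', ((mem x).1 x.2).tp (M + M')] with n a1 a2 a3
    exact bz_qm h (by linarith)
  -- comparison with the stable length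
  have hcmp : ∀ x : E, ∀ᶠ n in ω, abs (abs (bz (P n) o ((x : ℕ → G) n)) - sl o ((x : ℕ → G) n)) ≤
      4 * C + 10 * δ := by
    intro x
    obtain ⟨M, hM⟩ := ((mem x).1 x.2).bdd
    filter_upwards [hM, hPQ, ((mem x).1 x.2).tp (2 * M + C + 2 * δ + 1),
      ((mem x).1 x.2).tq (2 * M + C + 2 * δ + 1)] with n a1 a2 a3 a4
    have h1 := est_two h (g := (x : ℕ → G) n) a2 (by linarith) (by linarith)
    have h2 := sl_le o ((x : ℕ → G) n)
    rw [abs_le]
    constructor <;> linarith [h1.1, h1.2]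
  obtain ⟨φ, hφ⟩ := exists_hom hqm
  have hpow := hom_pow hφ
  have hq4 := hom_qm hqm hφ
  -- the stable length is constant
  have hL : ∀ x : E, ∃ k : ℕ, ∀ᶠ n in ω, sl o ((x : ℕ → G) n) = k * lam := by
    intro x
    choose j hj using hval
    obtain ⟨M, hM⟩ := ((mem x).1 x.2).bdd
    obtain ⟨k, hk⟩ := ultra_const (ω := ω) (j := fun n => j ((x : ℕ → G) n)) (J := ⌊M / lam⌋₊)
      (hM.mono fun n hn => by
        refine Nat.le_floor ?_
        rw [le_div_iff₀ hlam, ← hj]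
        exact (sl_le o _).trans hn)
    refine ⟨k, hk.mono fun n hn => ?_⟩
    rw [hj, hn]
  have habs : ∀ x : E, ∀ k : ℕ, (∀ᶠ n in ω, sl o ((x : ℕ → G) n) = k * lam) → |φ x| = k * lam := by
    intro x k hk
    have h1 : |φ x| - k * lam = 0 := by
      refine real_zero (C := 4 * C + 12 * δ) fun m => ?_
      have h2 : abs (abs (f (x ^ m)) - m * (k * lam)) ≤ 4 * C + 10 * δ := by
        have h3 : Tendsto (fun n => abs (abs (bz (P n) o (((x ^ m : E) : ℕ → G) n)) -
            m * (k * lam))) ω (𝓝 (abs (abs (f (x ^ m)) - m * (k * lam)))) :=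
          ((hf (x ^ m)).abs.sub_const _).abs
        refine le_of_tendsto h3 ?_
        filter_upwards [hcmp (x ^ m), hk] with n a1 a2
        have e : sl o (((x ^ m : E) : ℕ → G) n) = m * (k * lam) := by
          rw [← a2, ← sl_pow]
          simp
        rwa [e] at a1
      have h4 := hφ x m
      have h5 : abs (abs (m * φ x) - abs (f (x ^ m))) ≤ 2 * δ := (abs_abs_sub_abs_le _ _).trans h4
      rw [abs_mul, abs_of_nonneg (Nat.cast_nonneg m : (0 : ℝ) ≤ m)] at h5
      calc (m : ℝ) * abs (abs (φ x) - k * lam) = abs (m : ℝ) * abs (abs (φ x) - k * lam) := by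
            rw [abs_of_nonneg (Nat.cast_nonneg m : (0 : ℝ) ≤ m)]
        _ = abs ((m * abs (φ x) - abs (f (x ^ m))) + (abs (f (x ^ m)) - m * (k * lam))) := by
            rw [← abs_mul]; congr 1; ring
        _ ≤ abs (m * abs (φ x) - abs (f (x ^ m))) + abs (abs (f (x ^ m)) - m * (k * lam)) :=
            abs_add_le _ _
        _ ≤ 4 * C + 12 * δ := by linarith
    linarith
  have hzero : ∀ x : E, φ x = 0 → ∀ᶠ n in ω, (x : ℕ → G) n = 1 := by
    intro x hx
    obtain ⟨k, hk⟩ := hL x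
    have h1 := habs x k hk
    rw [hx, abs_zero] at h1
    filter_upwards [hk] with n hn
    exact hz _ (by rw [hn, ← h1])
  have hker : ∀ x : E, φ x = 0 → ∀ u : E, φ (x * u) = φ u := by
    intro x hx u
    have h1 := hzero x hx
    have h2 : ∀ m : ℕ, f ((x * u) ^ m) = f (u ^ m) := by
      intro m
      refine tendsto_nhds_unique ((hf ((x * u) ^ m)).congr' ?_) (hf (u ^ m))
      filter_upwards [h1] with n hn
      have : (((x * u) ^ m : E) : ℕ → G) n = ((u ^ m : E) : ℕ → G) n := by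
        simp [hn]
      rw [this]
    have h3 : φ (x * u) - φ u = 0 := by
      refine real_zero (C := 4 * δ) fun m => ?_
      have a1 := hφ (x * u) m
      have a2 := hφ u m
      rw [h2] at a1
      calc (m : ℝ) * abs (φ (x * u) - φ u) = abs (m : ℝ) * abs (φ (x * u) - φ u) := by
            rw [abs_of_nonneg (Nat.cast_nonneg m : (0 : ℝ) ≤ m)]
        _ = abs ((m * φ (x * u) - f (u ^ m)) - (m * φ u - f (u ^ m))) := by
            rw [← abs_mul]; congr 1; ring
        _ ≤ abs (m * φ (x * u) - f (u ^ m)) + abs (m * φ u - f (u ^ m)) := abs_sub _ _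
        _ ≤ 4 * δ := by linarith
    linarith
  have hadd := real_hom hq4 hpow hlam (fun x => by
    obtain ⟨k, hk⟩ := hL x
    have h1 := habs x k hk
    rcases abs_choice (φ x) with h2 | h2
    · exact ⟨k, by rw [← h2, h1]; push_cast; ring⟩
    · exact ⟨-k, by
        have : φ x = -(k * lam) := by rw [← h1, h2]; ring
        rw [this]; push_cast; ring⟩) hker
  -- conclusion
  obtain ⟨x, hx⟩ : ∃ x : E, (x : ℕ → G) = r := ⟨⟨r, (mem r).2 hr⟩, rfl⟩
  obtain ⟨y, hy⟩ : ∃ y : E, (y : ℕ → G) = s := ⟨⟨s, (mem s).2 hs⟩, rfl⟩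
  have hx1 : |φ x| = lam := by
    have := habs x 1 (hrl.mono fun n hn => by rw [hx, hn]; simp)
    simpa using this
  have hy1 : |φ y| = lam := by
    have := habs y 1 (hsl.mono fun n hn => by rw [hy, hn]; simp)
    simpa using this
  have hone : φ 1 = 0 := by simpa using hpow 1 0
  have hyi : φ y⁻¹ = -φ y := by
    have := hadd y y⁻¹
    rw [mul_inv_cancel, hone] at this
    linarith
  rcases abs_eq_abs.1 (hx1.trans hy1.symm) with h1 | h1
  · left
    have h2 : φ (x * y⁻¹) = 0 := by rw [hadd, hyi, h1]; ring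
    filter_upwards [hzero _ h2] with n hn
    have h3 : r n * (s n)⁻¹ = 1 := by
      rw [← hx, ← hy]
      simpa using hn
    exact mul_inv_eq_one.1 h3
  · right
    have h2 : φ (x * y) = 0 := by rw [hadd, h1]; ring
    filter_upwards [hzero _ h2] with n hn
    have h3 : r n * s n = 1 := by
      rw [← hx, ← hy]
      simpa using hn
    exact eq_inv_of_mul_eq_one_left h3

end Pool.Agent.H11.NL
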