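import Pool.Agent.H11.NL.Qr

/-!
# Gromov products, stable lengths, and two estimates for isometries which almost fix two far points
-/

set_option autoImplicit false

open Filter Topology

namespace Pool.Agent.H11.NL

/-- the four point condition -/
def Hyp4 (δ : ℝ) (X : Type*) [PseudoMetricSpace X] : Prop :=
  ∀ x y z w : X, dist x y + dist z w ≤ max (dist x z + dist y w) (dist x w + dist y z) + 2 * δ

variable {X : Type*} [PseudoMetricSpace X]

/-- the Gromov product -/
noncomputable def gp (o x y : X) : ℝ := (dist o x + dist o y - dist x y) / 2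

lemma gp_comm (o x y : X) : gp o x y = gp o y x := by
  unfold gp
  rw [dist_comm x y]
  ring

lemma gp_self (o x : X) : gp o x x = dist o x := by
  unfold gp
  rw [dist_self]
  ring

lemma gp_nonneg (o x y : X) : 0 ≤ gp o x y := by
  unfold gp
  have := dist_triangle x o y
  rw [dist_comm x o] at this
  linarith

lemma gp_le_left (o x y : X) : gp o x y ≤ dist o x := by
  unfold gp
  have := dist_triangle o x y
  linarith

lemma gp_le_right (o x y : X) : gp o x y ≤ dist o y := by
  rw [gp_comm]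
  exact gp_le_left o y x

lemma gp_base (o p x y : X) : gp o x y - dist o p ≤ gp p x y := by
  unfold gp
  have h1 := dist_triangle o p x
  have h2 := dist_triangle o p y
  linarith

lemma gp_move (o x y z : X) : gp o x y - dist y z ≤ gp o x z := by
  unfold gp
  have h1 := dist_triangle o z y
  have h2 := dist_triangle x y z
  rw [dist_comm z y] at h1
  linarith

lemma gp_swap (o p x : X) : gp p x o + gp o x p = dist o p := by
  unfold gp
  rw [dist_comm p x, dist_comm p o, dist_comm x o, dist_comm x p]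
  ring

lemma gp_min {δ : ℝ} (h : Hyp4 δ X) (o x y z : X) : min (gp o x y) (gp o y z) - δ ≤ gp o x z := by
  unfold gp
  have h1 := h x z o y
  rcases max_cases (dist x o + dist z y) (dist x y + dist z o) with ⟨h2, h3⟩ | ⟨h2, h3⟩
  · rw [h2] at h1
    rw [dist_comm x o, dist_comm z y] at h1
    have h4 := min_le_right ((dist o x + dist o y - dist x y) / 2) ((dist o y + dist o z - dist y z) / 2)
    linarith
  · rw [h2] at h1
    rw [dist_comm z o] at h1
    have h4 := min_le_left ((dist o x + dist o y - dist x y) / 2) ((dist o y + dist o z - dist y z) / 2)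
    linarith

lemma gp_le_of {δ C : ℝ} (h : Hyp4 δ X) {o x y z : X} (h1 : gp o x z ≤ C) (h2 : C + δ < gp o y z) :
    gp o x y ≤ C + δ := by
  have h3 := gp_min h o x y z
  rcases min_cases (gp o x y) (gp o y z) with ⟨h4, h5⟩ | ⟨h4, h5⟩
  · rw [h4] at h3; linarith
  · rw [h4] at h3; linarith

lemma hyp_nonneg {δ : ℝ} (h : Hyp4 δ X) (o : X) : 0 ≤ δ := by
  have := h o o o o
  simp only [dist_self, add_zero, max_self, zero_add] at this
  linarith

variable {G : Type*} [Group G] [MulAction G X] [IsIsometricSMul G X]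

lemma gp_smul (g : G) (o x y : X) : gp (g • o) (g • x) (g • y) = gp o x y := by
  unfold gp
  rw [dist_smul, dist_smul, dist_smul]

lemma gp_smul' (g : G) (o x y : X) : gp o (g • x) (g • y) = gp (g⁻¹ • o) x y := by
  rw [← gp_smul g (g⁻¹ • o) x y, smul_inv_smul]

lemma dist_inv_smul (g : G) (o : X) : dist o (g⁻¹ • o) = dist o (g • o) := by
  rw [← dist_smul g o (g⁻¹ • o), smul_inv_smul, dist_comm]

/-! ### stable lengths -/

lemma sub_disp (g : G) (o : X) : Subadditive fun n : ℕ => dist o (g ^ n • o) := by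
  intro m n
  show dist o (g ^ (m + n) • o) ≤ dist o (g ^ m • o) + dist o (g ^ n • o)
  have h1 := dist_triangle o (g ^ m • o) (g ^ (m + n) • o)
  have h2 : dist (g ^ m • o) (g ^ (m + n) • o) = dist o (g ^ n • o) := by
    rw [pow_add, mul_smul, dist_smul]
  rwa [h2] at h1

lemma bdd_disp (g : G) (o : X) : BddBelow (Set.range fun n : ℕ => dist o (g ^ n • o) / n) :=
  ⟨0, by rintro _ ⟨n, rfl⟩; exact div_nonneg dist_nonneg (Nat.cast_nonneg n)⟩

/-- the stable length -/
noncomputable def sl (o : X) (g : G) : ℝ := (sub_disp g o).lim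

lemma sl_tendsto (o : X) (g : G) :
    Tendsto (fun n : ℕ => dist o (g ^ n • o) / n) atTop (𝓝 (sl o g)) :=
  (sub_disp g o).tendsto_lim (bdd_disp g o)

lemma sl_nonneg (o : X) (g : G) : 0 ≤ sl o g :=
  ge_of_tendsto' (sl_tendsto o g) fun n => div_nonneg dist_nonneg (Nat.cast_nonneg n)

lemma mul_sl_le (o : X) (g : G) (n : ℕ) : n * sl o g ≤ dist o (g ^ n • o) := by
  rcases Nat.eq_zero_or_pos n with h | h
  · subst h
    simp
  · have h1 := (sub_disp g o).lim_le_div (bdd_disp g o) h.ne'
    have hn : (0 : ℝ) < n := Nat.cast_pos.2 h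
    rw [le_div_iff₀ hn] at h1
    unfold sl
    linarith

lemma sl_le (o : X) (g : G) : sl o g ≤ dist o (g • o) := by
  have := mul_sl_le o g 1
  simpa using this

lemma sl_ge (o : X) (g : G) {c C : ℝ} (h : ∀ n : ℕ, c * n - C ≤ dist o (g ^ n • o)) : c ≤ sl o g := by
  have h1 : Tendsto (fun n : ℕ => c - C / (n : ℝ)) atTop (𝓝 (c - 0)) :=
    (tendsto_const_nhds).sub (tendsto_const_div_atTop_nhds_zero_nat C)
  rw [sub_zero] at h1
  refine le_of_tendsto_of_tendsto h1 (sl_tendsto o g) ?_
  filter_upwards [eventually_gt_atTop 0] with n hn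
  have hn' : (0 : ℝ) < n := Nat.cast_pos.2 hn
  rw [le_div_iff₀ hn', sub_mul, div_mul_cancel₀ _ hn'.ne']
  exact h n

lemma sl_le_of (o : X) (g : G) {c C : ℝ} (h : ∀ n : ℕ, dist o (g ^ n • o) ≤ c * n + C) : sl o g ≤ c := by
  have h1 : Tendsto (fun n : ℕ => c + C / (n : ℝ)) atTop (𝓝 (c + 0)) :=
    (tendsto_const_nhds).add (tendsto_const_div_atTop_nhds_zero_nat C)
  rw [add_zero] at h1
  refine le_of_tendsto_of_tendsto (sl_tendsto o g) h1 ?_
  filter_upwards [eventually_gt_atTop 0] with n hn
  have hn' : (0 : ℝ) < n := Nat.cast_pos.2 hn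
  rw [div_le_iff₀ hn', add_mul, div_mul_cancel₀ _ hn'.ne']
  exact h n

lemma sl_conj (o : X) (u g : G) : sl o (u * g * u⁻¹) = sl o g := by
  have key : ∀ (u g : G), sl o (u * g * u⁻¹) ≤ sl o g := by
    intro u g
    have h1 : Tendsto (fun n : ℕ => dist o (g ^ n • o) / n + 2 * dist o (u • o) / n) atTop
        (𝓝 (sl o g + 0)) :=
      (sl_tendsto o g).add (tendsto_const_div_atTop_nhds_zero_nat _)
    rw [add_zero] at h1
    refine le_of_tendsto_of_tendsto' (sl_tendsto o (u * g * u⁻¹)) h1 fun n => ?_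
    rw [← add_div]
    refine div_le_div_of_nonneg_right ?_ (Nat.cast_nonneg n)
    have e1 : (u * g * u⁻¹) ^ n • o = u • (g ^ n • (u⁻¹ • o)) := by
      rw [conj_pow, mul_smul, mul_smul]
    have h2 := dist_triangle4 o (u • o) (u • (g ^ n • o)) (u • (g ^ n • (u⁻¹ • o)))
    rw [dist_smul, dist_smul, dist_smul, dist_inv_smul] at h2
    rw [e1]
    linarith
  refine le_antisymm (key u g) ?_
  have h := key u⁻¹ (u * g * u⁻¹)
  have e : u⁻¹ * (u * g * u⁻¹) * u⁻¹⁻¹ = g := by group
  rwa [e] at h

lemma sl_pow (o : X) (g : G) (k : ℕ) : sl o (g ^ k) = k * sl o g := by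
  rcases Nat.eq_zero_or_pos k with h | h
  · subst h
    rw [pow_zero, Nat.cast_zero, zero_mul]
    refine le_antisymm ?_ (sl_nonneg o 1)
    have := sl_le o (1 : G)
    rwa [one_smul, dist_self] at this
  · have hk : (0 : ℝ) < k := Nat.cast_pos.2 h
    have h1 : Tendsto (fun n : ℕ => dist o (g ^ (k * n) • o) / ((k * n : ℕ) : ℝ)) atTop (𝓝 (sl o g)) :=
      (sl_tendsto o g).comp (tendsto_id.const_mul_atTop' h)
    have h2 := h1.const_mul (k : ℝ)
    refine tendsto_nhds_unique (sl_tendsto o (g ^ k)) (h2.congr fun n => ?_)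
    rw [← pow_mul]
    push_cast
    field_simp

lemma sl_inv (o : X) (g : G) : sl o g⁻¹ = sl o g := by
  refine tendsto_nhds_unique (sl_tendsto o g⁻¹) ((sl_tendsto o g).congr fun n => ?_)
  rw [inv_pow, dist_inv_smul]

lemma sl_zpow (o : X) (g : G) (k : ℤ) : sl o (g ^ k) = k.natAbs * sl o g := by
  obtain ⟨n, rfl | rfl⟩ := k.eq_nat_or_neg
  · rw [zpow_natCast, sl_pow, Int.natAbs_natCast]
  · rw [zpow_neg, zpow_natCast, sl_inv, sl_pow, Int.natAbs_neg, Int.natAbs_natCast]

/-- `d(o,g²o) ≤ d(o,go) + l(g) + 2δ` -/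
lemma two_disp {δ : ℝ} (h : Hyp4 δ X) (o : X) (g : G) :
    dist o (g ^ 2 • o) ≤ dist o (g • o) + sl o g + 2 * δ := by
  rcases le_or_gt (dist o (g ^ 2 • o) - dist o (g • o) - 2 * δ) 0 with h0 | h0
  · have := sl_nonneg o g
    linarith
  obtain ⟨ε, hε⟩ : ∃ ε, ε = dist o (g ^ 2 • o) - dist o (g • o) - 2 * δ := ⟨_, rfl⟩
  rw [← hε] at h0
  have hstep : ∀ n : ℕ, dist o (g ^ n • o) + ε ≤ dist o (g ^ (n + 1) • o) := by
    intro n
    induction n with
    | zero =>
      simp only [pow_zero, one_smul, dist_self, zero_add, pow_one]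
      have h1 := (sub_disp g o) 1 1
      simp only [pow_one] at h1
      have h2 := hyp_nonneg h o
      norm_num at h1
      linarith
    | succ n ih =>
      have h1 := h o (g ^ 2 • o) (g • o) (g ^ (n + 2) • o)
      have e1 : dist (g • o) (g ^ (n + 2) • o) = dist o (g ^ (n + 1) • o) := by
        rw [pow_succ' g (n + 1), mul_smul, dist_smul]
      have e2 : dist (g ^ 2 • o) (g ^ (n + 2) • o) = dist o (g ^ n • o) := by
        rw [add_comm n 2, pow_add, mul_smul, dist_smul]
      have e3 : dist (g ^ 2 • o) (g • o) = dist o (g • o) := by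
        rw [pow_two, mul_smul, dist_smul, dist_comm]
      rw [e1, e2, e3] at h1
      have e4 : n + 1 + 1 = n + 2 := rfl
      rw [e4]
      rcases max_cases (dist o (g • o) + dist o (g ^ n • o)) (dist o (g ^ (n + 2) • o) + dist o (g • o))
        with ⟨h2, h3⟩ | ⟨h2, h3⟩
      · rw [h2] at h1
        linarith
      · rw [h2] at h1
        linarith
  have h1 : ε ≤ sl o g := by
    refine sl_ge o g (C := 0) fun n => ?_
    induction n with
    | zero => simp
    | succ n ih =>
      have := hstep n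
      push_cast
      linarith
  linarith

/-! ### the displacement away from `P` -/

/-- the displacement of `g o` away from `P` -/
noncomputable def bz (P o : X) (g : G) : ℝ := dist P (g • o) - dist P o

lemma abs_bz_le (P o : X) (g : G) : |bz P o g| ≤ dist o (g • o) := by
  unfold bz
  rw [abs_le]
  have h1 := dist_triangle P o (g • o)
  have h2 := dist_triangle P (g • o) o
  rw [dist_comm (g • o) o] at h2
  constructor <;> linarith

lemma bz_qm {δ : ℝ} (h : Hyp4 δ X) {P o : X} {g k : G}
    (h1 : dist o (g • o) + dist o (k • o) ≤ gp o (g • P) P) :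
    |bz P o (g * k) - bz P o g - bz P o k| ≤ 2 * δ := by
  have h2 : dist o (k • o) ≤ gp o (g⁻¹ • P) P := by
    have h3 := gp_smul g o (g⁻¹ • P) P
    rw [smul_inv_smul] at h3
    rw [← h3, gp_comm]
    have h4 := gp_base o (g • o) (g • P) P
    linarith
  have e1 : bz P o (g * k) - bz P o g = dist o (k • o) - 2 * gp o (g⁻¹ • P) (k • o) := by
    unfold bz gp
    have e2 : dist P ((g * k) • o) = dist (g⁻¹ • P) (k • o) := by
      rw [← dist_smul g (g⁻¹ • P) (k • o), smul_inv_smul, mul_smul]
    have e3 : dist P (g • o) = dist o (g⁻¹ • P) := by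
      rw [← dist_smul g o (g⁻¹ • P), smul_inv_smul, dist_comm]
    rw [e2, e3]
    ring
  have e2 : bz P o k = dist o (k • o) - 2 * gp o P (k • o) := by
    unfold bz gp
    rw [dist_comm P o]
    ring
  have h3 := gp_min h o P (g⁻¹ • P) (k • o)
  have h4 := gp_min h o (g⁻¹ • P) P (k • o)
  have h5 := gp_le_right o (g⁻¹ • P) (k • o)
  have h6 := gp_le_right o P (k • o)
  rw [gp_comm o P (g⁻¹ • P), min_eq_right (h5.trans h2)] at h3
  rw [min_eq_right (h6.trans h2)] at h4
  rw [e1, e2, abs_le]
  constructor <;> linarith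

/-- the two estimates -/
lemma est_two {δ C : ℝ} (h : Hyp4 δ X) {P Q o : X} {g : G} (hPQ : gp o P Q ≤ C)
    (h1 : 2 * dist o (g • o) + C + 2 * δ < gp o (g • P) P)
    (h2 : 2 * dist o (g • o) + C + 2 * δ < gp o (g • Q) Q) :
    dist o (g • o) ≤ |bz P o g| + (4 * C + 6 * δ) ∧ |bz P o g| ≤ sl o g + (4 * C + 10 * δ) := by
  have hC : 0 ≤ C := (gp_nonneg _ _ _).trans hPQ
  have hδ := hyp_nonneg h o
  have hd : 0 ≤ dist o (g • o) := dist_nonneg
  have hE1 : dist o (g • o) ≤ |bz P o g| + (4 * C + 6 * δ) := by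
    have h3 := gp_min h o P (g • o) Q
    have h3' : min (gp o P (g • o)) (gp o (g • o) Q) ≤ C + δ := by linarith
    rcases min_le_iff.1 h3' with h4 | h4
    · have e : bz P o g = dist o (g • o) - 2 * gp o P (g • o) := by
        unfold bz gp
        rw [dist_comm P o]
        ring
      have := le_abs_self (bz P o g)
      linarith
    · -- the product of `P`, `Q` at `g o`
      have h5 : gp (g • o) P Q ≤ C + 2 * δ := by
        have a1 : gp (g • o) (g • P) (g • Q) ≤ C := by rw [gp_smul]; exact hPQ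
        have a2 := gp_base o (g • o) (g • P) P
        have a3 := gp_base o (g • o) (g • Q) Q
        have a4 : gp (g • o) (g • P) Q ≤ C + δ := by
          refine gp_le_of h a1 ?_
          rw [gp_comm]
          linarith
        have a5 : gp (g • o) Q P ≤ C + δ + δ := by
          refine gp_le_of h (z := g • P) (by rw [gp_comm]; exact a4) ?_
          rw [gp_comm]
          linarith
        rw [gp_comm]
        linarith
      unfold gp at h4 h5
      unfold bz
      have h6 := dist_triangle P o Q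
      have h7 := neg_abs_le (dist P (g • o) - dist P o)
      rw [dist_comm P (g • o)] at h7 ⊢
      rw [dist_comm (g • o) Q] at h4 h5
      linarith
  refine ⟨hE1, ?_⟩
  have h3 := two_disp h o g
  have h4 := bz_qm h (P := P) (o := o) (g := g) (k := g) (by linarith)
  have h5 := abs_bz_le P o (g * g)
  rw [← pow_two] at h4 h5
  have h6 : 2 * |bz P o g| ≤ |bz P o (g ^ 2)| + 2 * δ := by
    have e : 2 * bz P o g = bz P o (g ^ 2) - (bz P o (g ^ 2) - bz P o g - bz P o g) := by ring
    calc 2 * |bz P o g| = |2 * bz P o g| := by rw [abs_mul]; norm_num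
      _ = |bz P o (g ^ 2) - (bz P o (g ^ 2) - bz P o g - bz P o g)| := by rw [← e]
      _ ≤ |bz P o (g ^ 2)| + |bz P o (g ^ 2) - bz P o g - bz P o g| := abs_sub _ _
      _ ≤ _ := by linarith
  linarith

end Pool.Agent.H11.NL
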