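import Pool.Agent.H11.NL.Hy

/-!
# Orbits of isometries with small product at the base point
-/

set_option autoImplicit false

open Filter Topology

namespace Pool.Agent.H11.NL

variable {X : Type*} [PseudoMetricSpace X] {G : Type*} [Group G] [MulAction G X] [IsIsometricSMul G X]

/-- Step A: `(w^{-n} o | w o)_o` -/
lemma prod_one {δ : ℝ} (h : Hyp4 δ X) {o : X} {w : G}
    (hw : 2 * gp o (w⁻¹ • o) (w • o) + 3 * δ < dist o (w • o)) (n : ℕ) :
    gp o (w⁻¹ ^ (n + 1) • o) (w • o) ≤ gp o (w⁻¹ • o) (w • o) + δ := by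
  have hδ := hyp_nonneg h o
  induction n with
  | zero =>
    rw [zero_add, pow_one]
    linarith
  | succ n ih =>
    rw [gp_comm]
    refine gp_le_of h (z := w⁻¹ • o) (by rw [gp_comm]) ?_
    have h1 := gp_swap o (w • o) (w⁻¹ ^ (n + 1) • o)
    have h2 : gp (w • o) (w⁻¹ ^ (n + 1) • o) o = gp o (w⁻¹ ^ (n + 1 + 1) • o) (w⁻¹ • o) := by
      rw [← gp_smul w o (w⁻¹ ^ (n + 1 + 1) • o) (w⁻¹ • o), smul_inv_smul, pow_succ' w⁻¹ (n + 1),
        mul_smul, smul_inv_smul]
    rw [h2] at h1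
    linarith

/-- Step B: `(w^{-m} o | w^n o)_o` -/
lemma prod_two {δ : ℝ} (h : Hyp4 δ X) {o : X} {w : G}
    (hw : 2 * gp o (w⁻¹ • o) (w • o) + 3 * δ < dist o (w • o)) (m n : ℕ) :
    gp o (w⁻¹ ^ (m + 1) • o) (w ^ (n + 1) • o) ≤ gp o (w⁻¹ • o) (w • o) + 2 * δ := by
  have h1 := prod_one h hw m
  have hδ := hyp_nonneg h o
  rcases Nat.eq_zero_or_pos n with h0 | h0
  · subst h0
    rw [zero_add, pow_one]
    linarith
  obtain ⟨k, rfl⟩ : ∃ k, n = k + 1 := ⟨n - 1, by omega⟩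
  have h2 : gp o (w⁻¹ ^ (m + 1) • o) (w ^ (k + 1 + 1) • o) ≤ gp o (w⁻¹ • o) (w • o) + δ + δ := by
    refine gp_le_of h h1 ?_
    have hw' : 2 * gp o (w⁻¹⁻¹ • o) (w⁻¹ • o) + 3 * δ < dist o (w⁻¹ • o) := by
      rw [inv_inv, gp_comm, dist_inv_smul]
      exact hw
    have h3 := prod_one h hw' k
    rw [inv_inv, gp_comm o (w • o)] at h3
    have h4 := gp_swap o (w • o) (w ^ (k + 1 + 1) • o)
    have h5 : gp (w • o) (w ^ (k + 1 + 1) • o) o = gp o (w ^ (k + 1) • o) (w⁻¹ • o) := by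
      rw [← gp_smul w o (w ^ (k + 1) • o) (w⁻¹ • o), smul_inv_smul, pow_succ' w (k + 1), mul_smul]
    rw [h5] at h4
    linarith
  linarith

/-- the product at `o` of `w⁻¹ o` and `w o` in terms of displacements -/
lemma gp_two (o : X) (w : G) :
    gp o (w⁻¹ • o) (w • o) = dist o (w • o) - dist o (w ^ 2 • o) / 2 := by
  unfold gp
  have h1 : dist (w⁻¹ • o) (w • o) = dist o (w ^ 2 • o) := by
    rw [← dist_smul w (w⁻¹ • o) (w • o), smul_inv_smul, pow_two, mul_smul]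
  rw [h1, dist_inv_smul]
  ring

/-- a power of a loxodromic isometry with small product -/
lemma exists_power {δ : ℝ} (o : X) {a : G} (ha : 0 < sl o a) :
    ∃ k : ℕ, 0 < k ∧ 2 * gp o ((a ^ k)⁻¹ • o) (a ^ k • o) + 3 * δ < dist o (a ^ k • o) := by
  by_contra hcon
  push Not at hcon
  have h1 : ∀ j : ℕ, dist o (a ^ (2 ^ j) • o) ≤ dist o (a • o) + j * (3 * |δ|) := by
    intro j
    induction j with
    | zero => simp
    | succ j ih =>
      have h2 := hcon (2 ^ j) (by positivity)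
      rw [gp_two, ← pow_mul, ← pow_succ] at h2
      have h3 := le_abs_self δ
      push_cast
      linarith
  obtain ⟨j, hj⟩ : ∃ j : ℕ, dist o (a • o) + j * (3 * |δ|) < 2 ^ j * sl o a := by
    have t1 : Tendsto (fun j : ℕ => (j : ℝ) * (1 / 2 : ℝ) ^ j) atTop (𝓝 0) :=
      tendsto_self_mul_const_pow_of_lt_one (by norm_num) (by norm_num)
    have t2 : Tendsto (fun j : ℕ => (1 / 2 : ℝ) ^ j) atTop (𝓝 0) :=
      tendsto_pow_atTop_nhds_zero_of_lt_one (by norm_num) (by norm_num)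
    have t3 := (t2.const_mul (dist o (a • o))).add (t1.mul_const (3 * |δ|))
    rw [mul_zero, zero_mul, add_zero] at t3
    obtain ⟨j, hj⟩ := (t3.eventually (gt_mem_nhds ha)).exists
    refine ⟨j, ?_⟩
    have h2 : (0 : ℝ) < 2 ^ j := by positivity
    have h3 := mul_lt_mul_of_pos_left hj h2
    have e : (2 : ℝ) ^ j * (dist o (a • o) * (1 / 2) ^ j + (j : ℝ) * (1 / 2) ^ j * (3 * |δ|)) =
        dist o (a • o) + j * (3 * |δ|) := by
      have e1 : (2 : ℝ) ^ j * (1 / 2) ^ j = 1 := by rw [← mul_pow]; norm_num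
      calc (2 : ℝ) ^ j * (dist o (a • o) * (1 / 2) ^ j + (j : ℝ) * (1 / 2) ^ j * (3 * |δ|))
          = (2 ^ j * (1 / 2) ^ j) * (dist o (a • o) + j * (3 * |δ|)) := by ring
        _ = _ := by rw [e1, one_mul]
    rw [e] at h3
    exact h3
  have h2 := h1 j
  have h3 := mul_sl_le o a (2 ^ j)
  push_cast at h3
  linarith

/-- an isometry commuting with `w` (small product at `o`) moves `o` by at most its stable length plus a constant -/
lemma comm_disp {δ : ℝ} (h : Hyp4 δ X) {o : X} {w r : G}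
    (hw : 2 * gp o (w⁻¹ • o) (w • o) + 3 * δ < dist o (w • o)) (hs : 0 < sl o w) (hc : r * w = w * r) :
    dist o (r • o) ≤ sl o r + (8 * gp o (w⁻¹ • o) (w • o) + 32 * δ) := by
  obtain ⟨C, hC⟩ : ∃ C, C = gp o (w⁻¹ • o) (w • o) + 2 * δ := ⟨_, rfl⟩
  obtain ⟨N, hN⟩ := exists_nat_gt ((3 * dist o (r • o) + C + 2 * δ) / sl o w)
  rw [div_lt_iff₀ hs] at hN
  have hbig : 3 * dist o (r • o) + C + 2 * δ < dist o (w ^ (N + 1) • o) := by
    have h1 := mul_sl_le o w (N + 1)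
    push_cast at h1
    linarith
  have hci : r * w⁻¹ = w⁻¹ * r := by
    have : Commute r w := hc
    exact this.inv_right
  have key : ∀ v : G, r * v = v * r → dist o (v • o) = dist o (w ^ (N + 1) • o) →
      2 * dist o (r • o) + C + 2 * δ < gp o (r • (v • o)) (v • o) := by
    intro v hv hd
    have h1 := gp_move o (v • o) (v • o) (r • (v • o))
    have h2 : dist (v • o) (r • (v • o)) = dist o (r • o) := by
      rw [← mul_smul, hv, mul_smul, dist_smul]
    rw [gp_self, h2, hd] at h1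
    rw [gp_comm]
    linarith
  have hcp : ∀ k : ℕ, r * w ^ k = w ^ k * r := fun k => (show Commute r w from hc).pow_right k
  have hcq : ∀ k : ℕ, r * w⁻¹ ^ k = w⁻¹ ^ k * r := fun k => (show Commute r w⁻¹ from hci).pow_right k
  have h3 := est_two h (P := w⁻¹ ^ (N + 1) • o) (Q := w ^ (N + 1) • o) (o := o) (g := r) (C := C)
    (by rw [hC]; exact prod_two h hw N N)
    (key _ (hcq _) (by rw [inv_pow, dist_inv_smul])) (key _ (hcp _) rfl)
  rw [hC] at h3
  linarith [h3.1, h3.2]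

end Pool.Agent.H11.NL
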