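import Pool.Agent.H11.NL.Gr

/-!
# Groups all of whose elements are conjugate to powers of one loxodromic element
-/

set_option autoImplicit false

open Filter Topology

namespace Pool.Agent.H11.NL

variable {X : Type*} [PseudoMetricSpace X] {G : Type*} [Group G] [MulAction G X] [IsIsometricSMul G X]

lemma chain {δ : ℝ} (h : Hyp4 δ X) {o p : X} {r w : G} (hc : r * w = w * r) {B M : ℝ}
    (hM : dist o (r • o) ≤ M) (hB : B ≤ gp o (w • o) p) : B - M - 2 * δ ≤ gp o (r • p) p := by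
  have hδ := hyp_nonneg h o
  have hM0 : 0 ≤ M := dist_nonneg.trans hM
  have h1 : B - M ≤ gp o (r • p) (r • (w • o)) := by
    rw [gp_smul']
    have := gp_base o (r⁻¹ • o) p (w • o)
    rw [dist_inv_smul, gp_comm o p] at this
    linarith
  have h2 : B - M ≤ gp o (r • (w • o)) (w • o) := by
    have a1 := gp_move o (w • o) (w • o) (r • (w • o))
    have a2 : dist (w • o) (r • (w • o)) = dist o (r • o) := by
      rw [← mul_smul, hc, mul_smul, dist_smul]
    have a3 := gp_le_left o (w • o) p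
    rw [gp_self, a2] at a1
    rw [gp_comm]
    linarith
  have h3 : B - M ≤ gp o (w • o) p := by linarith
  have h4 := gp_min h o (r • p) (r • (w • o)) (w • o)
  have h5 := gp_min h o (r • p) (w • o) p
  have h6 : B - M ≤ min (gp o (r • p) (r • (w • o))) (gp o (r • (w • o)) (w • o)) := le_min h1 h2
  have h7 : B - M - δ ≤ min (gp o (r • p) (w • o)) (gp o (w • o) p) :=
    le_min (by linarith) (by linarith)
  linarith

lemma root {a : G} (hC : ∀ g : G, ∃ k : ℤ, IsConj g (a ^ k)) (o : X) (g : G) :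
    ∃ (r : G) (k : ℤ), sl o r = sl o a ∧ r ^ k = g := by
  obtain ⟨k, hk⟩ := hC g
  obtain ⟨c, hc⟩ := isConj_iff.1 hk
  refine ⟨c⁻¹ * a * c⁻¹⁻¹, k, sl_conj o c⁻¹ a, ?_⟩
  rw [conj_zpow, ← hc]
  group

lemma val {a : G} (hC : ∀ g : G, ∃ k : ℤ, IsConj g (a ^ k)) (o : X) (g : G) :
    ∃ k : ℕ, sl o g = k * sl o a := by
  obtain ⟨r, k, h1, h2⟩ := root hC o g
  exact ⟨k.natAbs, by rw [← h2, sl_zpow, h1]⟩

lemma zero_one {a : G} (hC : ∀ g : G, ∃ k : ℤ, IsConj g (a ^ k)) {o : X} (ha : 0 < sl o a) {g : G}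
    (hg : sl o g = 0) : g = 1 := by
  obtain ⟨r, k, h1, h2⟩ := root hC o g
  rw [← h2, sl_zpow, h1] at hg
  have h3 : (k.natAbs : ℝ) = 0 := by
    rcases mul_eq_zero.1 hg with h | h
    · exact h
    · exact absurd h ha.ne'
  have h4 : k = 0 := by
    have : k.natAbs = 0 := by exact_mod_cast h3
    exact Int.natAbs_eq_zero.1 this
  rw [← h2, h4, zpow_zero]

lemma disp_big {o : X} {h : G} (hs : 0 < sl o h) (R : ℝ) :
    ∀ᶠ n : ℕ in atTop, R ≤ dist o (h ^ n • o) := by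
  filter_upwards [eventually_ge_atTop ⌈R / sl o h⌉₊] with n hn
  have h1 := mul_sl_le o h n
  have h2 : R / sl o h ≤ n := (Nat.le_ceil _).trans (Nat.cast_le.2 hn)
  rw [div_le_iff₀ hs] at h2
  linarith

/-- the main claim -/
theorem claim {δ : ℝ} (hX : Hyp4 δ X) {a : G} (hC : ∀ g : G, ∃ k : ℤ, IsConj g (a ^ k)) {o : X}
    (ha : 0 < sl o a) {h : G} {k0 : ℕ} (hk0 : 0 < k0) (hh : h = a ^ k0)
    (hsmall : 2 * gp o (h⁻¹ • o) (h • o) + 3 * δ < dist o (h • o)) {y : G} {C : ℝ}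
    (hf : ∃ᶠ n in atTop, gp o ((y * h ^ n) • o) (h⁻¹ ^ n • o) ≤ C) : y ∈ Subgroup.zpowers a := by
  by_contra hy
  have hδ := hyp_nonneg hX o
  obtain ⟨ω, hω1, hω2⟩ : ∃ ω : Ultrafilter ℕ, (ω : Filter ℕ) ≤ atTop ∧
      ∀ᶠ n in ω, gp o ((y * h ^ n) • o) (h⁻¹ ^ n • o) ≤ C := by
    have hne : NeBot (atTop ⊓ 𝓟 {n : ℕ | gp o ((y * h ^ n) • o) (h⁻¹ ^ n • o) ≤ C}) :=
      frequently_mem_iff_neBot.1 hf
    exact ⟨Ultrafilter.of (atTop ⊓ 𝓟 {n : ℕ | gp o ((y * h ^ n) • o) (h⁻¹ ^ n • o) ≤ C}),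
      (Ultrafilter.of_le _).trans inf_le_left,
      le_principal_iff.1 ((Ultrafilter.of_le _).trans inf_le_right)⟩
  have hslh : 0 < sl o h := by
    rw [hh, sl_pow]
    have : (0 : ℝ) < k0 := Nat.cast_pos.2 hk0
    positivity
  have hbQ : ∀ R : ℝ, ∀ᶠ n in ω, R ≤ dist o (h ^ n • o) := fun R => hω1 (disp_big hslh R)
  have hPd : ∀ n : ℕ, dist o (h⁻¹ ^ n • o) = dist o (h ^ n • o) := fun n => by
    rw [inv_pow, dist_inv_smul]
  have hbP : ∀ R : ℝ, ∀ᶠ n in ω, R ≤ dist o (h⁻¹ ^ n • o) := fun R =>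
    (hbQ R).mono fun n hn => by rwa [hPd]
  obtain ⟨C0, hC0⟩ : ∃ C0, C0 = gp o (h⁻¹ • o) (h • o) + 2 * δ := ⟨_, rfl⟩
  have hPQ : ∀ᶠ n in ω, gp o (h⁻¹ ^ n • o) (h ^ n • o) ≤ C0 := by
    filter_upwards [hω1 (eventually_ge_atTop 1)] with n hn
    obtain ⟨m, rfl⟩ : ∃ m, n = m + 1 := ⟨n - 1, by omega⟩
    rw [hC0]
    exact prod_two hX hsmall m m
  have hC00 : 0 ≤ C0 := by
    have := gp_nonneg o (h⁻¹ • o) (h • o)
    linarith
  -- roots
  have hroot := fun n : ℕ => root hC o (h ^ n * y * h ^ n)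
  choose r k hr1 hr2 using hroot
  have hmem : ∀ n : ℕ, h ^ n * y * h ^ n ∈ Subgroup.zpowers a → False := by
    intro n hn
    have hn1 : h ^ n ∈ Subgroup.zpowers a := by
      rw [hh]
      exact Subgroup.pow_mem _ (Subgroup.pow_mem _ (Subgroup.mem_zpowers a) _) _
    have h1 := Subgroup.mul_mem _ (Subgroup.mul_mem _ (Subgroup.inv_mem _ hn1) hn) (Subgroup.inv_mem _ hn1)
    have e : (h ^ n)⁻¹ * (h ^ n * y * h ^ n) * (h ^ n)⁻¹ = y := by group
    rw [e] at h1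
    exact hy h1
  have hkne : ∀ n : ℕ, k n ≠ 0 := by
    intro n hn
    have h1 := hr2 n
    rw [hn, zpow_zero] at h1
    refine hmem n ?_
    rw [← h1]
    exact Subgroup.one_mem _
  have hslw : ∀ n : ℕ, 0 < sl o (h ^ n * y * h ^ n) := by
    intro n
    rw [← hr2 n, sl_zpow, hr1]
    have : 0 < (k n).natAbs := Int.natAbs_pos.2 (hkne n)
    have : (0 : ℝ) < ((k n).natAbs : ℝ) := Nat.cast_pos.2 this
    positivity
  have hcomm : ∀ n : ℕ, r n * (h ^ n * y * h ^ n) = (h ^ n * y * h ^ n) * r n := by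
    intro n
    rw [← hr2 n]
    exact (Commute.refl (r n)).zpow_right (k n)
  have hcommi : ∀ n : ℕ, r n * (h ^ n * y * h ^ n)⁻¹ = (h ^ n * y * h ^ n)⁻¹ * r n := by
    intro n
    exact (show Commute (r n) (h ^ n * y * h ^ n) from hcomm n).inv_right
  -- (a)
  have hA : ∀ᶠ n in ω, dist o (h ^ n • o) - C - dist o (y • o) ≤
      gp o ((h ^ n * y * h ^ n) • o) (h ^ n • o) := by
    filter_upwards [hω2] with n hn
    have e1 : gp o ((h ^ n * y * h ^ n) • o) (h ^ n • o) =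
        gp (h⁻¹ ^ n • o) ((y * h ^ n) • o) o := by
      rw [mul_assoc, mul_smul, gp_smul', inv_pow]
    have e2 := gp_swap o (h⁻¹ ^ n • o) ((y * h ^ n) • o)
    rw [hPd] at e2
    have : 0 ≤ dist o (y • o) := dist_nonneg
    rw [e1]
    linarith
  -- (b)
  have hB : ∀ᶠ n in ω, dist o (h ^ n • o) - C - dist o (y • o) ≤
      gp o ((h ^ n * y * h ^ n)⁻¹ • o) (h⁻¹ ^ n • o) := by
    filter_upwards [hω2] with n hn
    have e1 : gp o ((h ^ n * y * h ^ n)⁻¹ • o) (h⁻¹ ^ n • o) =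
        gp (h ^ n • o) ((y⁻¹ * h⁻¹ ^ n) • o) o := by
      have e0 : (h ^ n * y * h ^ n)⁻¹ = h⁻¹ ^ n * (y⁻¹ * h⁻¹ ^ n) := by
        rw [inv_pow]
        group
      rw [e0, mul_smul, gp_smul', inv_pow, inv_inv]
    have e2 := gp_swap o (h ^ n • o) ((y⁻¹ * h⁻¹ ^ n) • o)
    have e3 : gp o ((y⁻¹ * h⁻¹ ^ n) • o) (h ^ n • o) =
        gp (y • o) (h⁻¹ ^ n • o) ((y * h ^ n) • o) := by
      rw [← gp_smul y o, ← mul_smul, mul_inv_cancel_left, mul_smul y]
    have e4 := gp_base (y • o) o (h⁻¹ ^ n • o) ((y * h ^ n) • o)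
    rw [dist_comm (y • o) o, gp_comm o (h⁻¹ ^ n • o)] at e4
    rw [e1]
    linarith
  -- (c)
  have hc1 : ∀ᶠ n in ω, gp o ((h ^ n * y * h ^ n)⁻¹ • o) ((h ^ n * y * h ^ n) • o) ≤ C0 + 2 * δ := by
    filter_upwards [hA, hB, hPQ, hbQ (C0 + 3 * δ + C + dist o (y • o) + 1)] with n a1 a2 a3 a4
    have b1 : gp o (h⁻¹ ^ n • o) ((h ^ n * y * h ^ n) • o) ≤ C0 + δ :=
      gp_le_of hX a3 (by linarith)
    have b2 : gp o ((h ^ n * y * h ^ n) • o) ((h ^ n * y * h ^ n)⁻¹ • o) ≤ C0 + δ + δ :=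
      gp_le_of hX (z := h⁻¹ ^ n • o) (by rw [gp_comm]; exact b1) (by linarith)
    rw [gp_comm]
    linarith
  -- (d)
  obtain ⟨M, hM⟩ : ∃ M, M = sl o a + (8 * (C0 + 2 * δ) + 32 * δ) := ⟨_, rfl⟩
  have hd1 : ∀ᶠ n in ω, dist o (r n • o) ≤ M := by
    filter_upwards [hA, hc1, hbQ (2 * (C0 + 2 * δ) + 3 * δ + C + dist o (y • o) + 1)] with n a1 a2 a3
    have b1 := gp_le_left o ((h ^ n * y * h ^ n) • o) (h ^ n • o)
    have b2 := comm_disp hX (o := o) (w := h ^ n * y * h ^ n) (r := r n) (by linarith) (hslw n) (hcomm n)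
    rw [hr1] at b2
    rw [hM]
    linarith
  -- the sequence `r` lies in the group
  have hEr : EE ω (fun n => h⁻¹ ^ n • o) (fun n => h ^ n • o) o r := by
    refine ⟨⟨M, hd1⟩, fun R => ?_, fun R => ?_⟩
    · filter_upwards [hd1, hB, hbQ (R + C + dist o (y • o) + M + 2 * δ)] with n a1 a2 a3
      have := chain hX (hcommi n) a1 a2
      linarith
    · filter_upwards [hd1, hA, hbQ (R + C + dist o (y • o) + M + 2 * δ)] with n a1 a2 a3
      have := chain hX (hcomm n) a1 a2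
      linarith
  -- the constant sequence `a` lies in the group
  have hah : ∀ n : ℕ, Commute a (h ^ n) := by
    intro n
    rw [hh]
    exact ((Commute.refl a).pow_right k0).pow_right n
  have hEa : EE ω (fun n => h⁻¹ ^ n • o) (fun n => h ^ n • o) o (fun _ => a) := by
    have key : ∀ v : G, Commute a v → dist o (v • o) - dist o (a • o) ≤ gp o (a • (v • o)) (v • o) := by
      intro v hv
      have a1 := gp_move o (v • o) (v • o) (a • (v • o))
      have a2 : dist (v • o) (a • (v • o)) = dist o (a • o) := by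
        rw [← mul_smul, hv.eq, mul_smul, dist_smul]
      rw [gp_self, a2] at a1
      rw [gp_comm]
      exact a1
    refine ⟨⟨dist o (a • o), Eventually.of_forall fun n => le_rfl⟩, fun R => ?_, fun R => ?_⟩
    · filter_upwards [hbP (R + dist o (a • o))] with n hn
      have := key (h⁻¹ ^ n) (by rw [inv_pow]; exact (hah n).inv_right)
      linarith
    · filter_upwards [hbQ (R + dist o (a • o))] with n hn
      have := key (h ^ n) (hah n)
      linarith
  -- conclusion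
  have hfin := key_step hX hbP hbQ hPQ ha (val hC o) (fun g hg => zero_one hC ha hg) hEr hEa
    (Eventually.of_forall hr1) (Eventually.of_forall fun _ => rfl)
  rcases hfin with h1 | h1
  · obtain ⟨n, hn⟩ := h1.exists
    refine hmem n ?_
    rw [← hr2 n, hn]
    exact Subgroup.zpow_mem _ (Subgroup.mem_zpowers a) _
  · obtain ⟨n, hn⟩ := h1.exists
    refine hmem n ?_
    rw [← hr2 n, hn]
    exact Subgroup.zpow_mem _ (Subgroup.inv_mem _ (Subgroup.mem_zpowers a)) _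

end Pool.Agent.H11.NL
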