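import Mathlib

/-!
# A Hölder theorem for quasimorphisms

An integer valued homogeneous quasimorphism which vanishes only at `1` (or only on its kernel) is a homomorphism.
-/

set_option autoImplicit false

namespace Pool.Agent.H11.NL

variable {H : Type*} [Group H]

/-- integer valued homogeneous quasimorphisms -/
structure ZQM (φ : H → ℤ) : Prop where
  qm : ∃ D : ℤ, ∀ x y, |φ (x * y) - φ x - φ y| ≤ D
  pow : ∀ x (n : ℕ), φ (x ^ n) = n * φ x

/-- an integer all of whose multiples are bounded is zero -/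
lemma zero_of_mul_le {t C : ℤ} (h : ∀ n : ℕ, (n : ℤ) * |t| ≤ C) : t = 0 := by
  by_contra ht
  have h1 : 1 ≤ |t| := Int.one_le_abs ht
  have h2 := h (C.toNat + 1)
  have h3 : C ≤ (C.toNat : ℤ) := Int.self_le_toNat C
  push_cast at h2
  nlinarith [Int.natCast_nonneg C.toNat]

variable {φ : H → ℤ}

lemma ZQM.one (hφ : ZQM φ) : φ 1 = 0 := by
  have := hφ.pow 1 0
  simpa using this

lemma ZQM.comm (hφ : ZQM φ) {x y : H} (h : x * y = y * x) : φ (x * y) = φ x + φ y := by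
  obtain ⟨D, hD⟩ := hφ.qm
  have : φ (x * y) - φ x - φ y = 0 := by
    refine zero_of_mul_le (C := D) fun n => ?_
    have h1 := hD (x ^ n) (y ^ n)
    have h2 : x ^ n * y ^ n = (x * y) ^ n := ((show Commute x y from h).mul_pow n).symm
    rw [h2, hφ.pow, hφ.pow, hφ.pow] at h1
    calc (n : ℤ) * |φ (x * y) - φ x - φ y| = |(n : ℤ)| * |φ (x * y) - φ x - φ y| := by
          rw [abs_of_nonneg (Int.natCast_nonneg n)]
      _ = |(n : ℤ) * φ (x * y) - n * φ x - n * φ y| := by rw [← abs_mul]; congr 1; ring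
      _ ≤ D := h1
  linarith

lemma ZQM.inv (hφ : ZQM φ) (x : H) : φ x⁻¹ = -φ x := by
  have h := hφ.comm (x := x) (y := x⁻¹) (by simp)
  rw [mul_inv_cancel, hφ.one] at h
  linarith

lemma ZQM.conj (hφ : ZQM φ) (u x : H) : φ (u * x * u⁻¹) = φ x := by
  obtain ⟨D, hD⟩ := hφ.qm
  have : φ (u * x * u⁻¹) - φ x = 0 := by
    refine zero_of_mul_le (C := 2 * D) fun n => ?_
    have h1 := hD (u * x ^ n) u⁻¹
    have h2 := hD u (x ^ n)
    have h3 : u * x ^ n * u⁻¹ = (u * x * u⁻¹) ^ n := (conj_pow).symm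
    rw [h3, hφ.pow, hφ.inv] at h1
    rw [hφ.pow] at h2
    calc (n : ℤ) * |φ (u * x * u⁻¹) - φ x| = |(n : ℤ)| * |φ (u * x * u⁻¹) - φ x| := by
          rw [abs_of_nonneg (Int.natCast_nonneg n)]
      _ = |((n : ℤ) * φ (u * x * u⁻¹) - φ (u * x ^ n) - -φ u) + (φ (u * x ^ n) - φ u - n * φ x)| := by
          rw [← abs_mul]; congr 1; ring
      _ ≤ |(n : ℤ) * φ (u * x * u⁻¹) - φ (u * x ^ n) - -φ u| + |φ (u * x ^ n) - φ u - n * φ x| :=
          abs_add_le _ _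
      _ ≤ 2 * D := by linarith
  linarith

lemma ZQM.cyc (hφ : ZQM φ) (x y : H) : φ (x * y) = φ (y * x) := by
  have h := hφ.conj y (x * y)
  rw [← h]
  congr 1
  group

/-- the consequence of maximality of the defect -/
lemma ext_step (hφ : ZQM φ) {x y : H} {D : ℤ} (hD : ∀ u v, φ (u * v) - φ u - φ v ≤ D)
    (hxy : φ (x * y) - φ x - φ y = D) (u : H) : φ (y⁻¹ * u) + (φ x + φ y) ≤ φ (x * u) := by
  have h1 := hD (x * u) (u⁻¹ * y)
  have h2 : x * u * (u⁻¹ * y) = x * y := by group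
  have h3 : φ (u⁻¹ * y) = -φ (y⁻¹ * u) := by
    rw [← hφ.inv]
    congr 1
    group
  rw [h2, h3] at h1
  linarith

lemma ext_pow (hφ : ZQM φ) {x y : H} {D : ℤ} (hD : ∀ u v, φ (u * v) - φ u - φ v ≤ D)
    (hxy : φ (x * y) - φ x - φ y = D) (m : ℕ) (u : H) :
    φ (y⁻¹ ^ m * u) + m * (φ x + φ y) ≤ φ (x ^ m * u) := by
  induction m generalizing u with
  | zero => simp
  | succ m ih =>
    have h1 := ext_step hφ hD hxy (x ^ m * u)
    have h2 := ih (u * y⁻¹)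
    have e1 : φ (x ^ (m + 1) * u) = φ (x * (x ^ m * u)) := by
      rw [pow_succ', mul_assoc]
    have e2 : φ (y⁻¹ * (x ^ m * u)) = φ (x ^ m * (u * y⁻¹)) := by
      rw [hφ.cyc y⁻¹, mul_assoc]
    have e3 : φ (y⁻¹ ^ (m + 1) * u) = φ (y⁻¹ ^ m * (u * y⁻¹)) := by
      rw [pow_succ', mul_assoc, hφ.cyc y⁻¹, mul_assoc]
    rw [e1, e3]
    rw [e2] at h1
    push_cast
    linarith

/-- additivity for powers of opposite signs -/
lemma ext_add (hφ : ZQM φ) {x y : H} {D : ℤ} (hD : ∀ u v, φ (u * v) - φ u - φ v ≤ D)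
    (hxy : φ (x * y) - φ x - φ y = D) (m n : ℕ) :
    φ (x ^ m * y⁻¹ ^ n) = m * φ x - n * φ y := by
  have hyx : φ (y * x) - φ y - φ x = D := by rw [hφ.cyc y x]; linarith
  refine le_antisymm ?_ ?_
  · have h1 := ext_pow hφ hD hyx n (x⁻¹ ^ m)
    have e1 : φ (y ^ n * x⁻¹ ^ m) = -φ (x ^ m * y⁻¹ ^ n) := by
      rw [← hφ.inv]
      congr 1
      rw [mul_inv_rev, inv_pow, inv_pow, inv_inv]
    have e2 : φ (x⁻¹ ^ n * x⁻¹ ^ m) = -((n + m) * φ x) := by
      rw [← pow_add, hφ.pow, hφ.inv]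
      push_cast
      ring
    rw [e1, e2] at h1
    linarith
  · have h1 := ext_pow hφ hD hxy m (y⁻¹ ^ n)
    have e2 : φ (y⁻¹ ^ m * y⁻¹ ^ n) = -((m + n) * φ y) := by
      rw [← pow_add, hφ.pow, hφ.inv]
      push_cast
      ring
    rw [e2] at h1
    linarith

lemma ext_diag (hφ : ZQM φ) {x y : H} {D : ℤ} (hD : ∀ u v, φ (u * v) - φ u - φ v ≤ D)
    (hxy : φ (x * y) - φ x - φ y = D) (n : ℕ) :
    (n + 1) * (φ x + φ y) + D ≤ φ (x ^ (n + 1) * y ^ (n + 1)) := by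
  have h1 := ext_pow hφ hD hxy n (x * y ^ (n + 1))
  have e1 : x ^ (n + 1) * y ^ (n + 1) = x ^ n * (x * y ^ (n + 1)) := by
    rw [pow_succ x n, mul_assoc]
  have e2 : φ (y⁻¹ ^ n * (x * y ^ (n + 1))) = φ (x * y) := by
    rw [hφ.cyc]
    congr 1
    rw [mul_assoc, pow_succ' y n, mul_assoc, inv_pow, mul_inv_cancel, mul_one]
  rw [e1]
  rw [e2] at h1
  linarith

/-- the contradiction from an extremal pair with values of the same sign -/
lemma ext_same (hφ : ZQM φ) (h0 : ∀ g, φ g = 0 → ∀ u, φ (g * u) = φ u) {x y : H} {D : ℤ}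
    (hD : ∀ u v, φ (u * v) - φ u - φ v ≤ D) (hxy : φ (x * y) - φ x - φ y = D) (hpos : 0 < D)
    (hs : 0 ≤ φ x * φ y) : False := by
  have hx : φ x ≠ 0 := fun h => by
    have := h0 x h y
    rw [this, h] at hxy
    linarith
  have hy : φ y ≠ 0 := fun h => by
    have := h0 y h x
    rw [hφ.cyc x y, this, h] at hxy
    linarith
  have h1 := ext_add hφ hD hxy (φ y).natAbs (φ x).natAbs
  have h2 : ((φ y).natAbs : ℤ) * φ x - ((φ x).natAbs : ℤ) * φ y = 0 := by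
    rw [Int.natCast_natAbs, Int.natCast_natAbs]
    rcases lt_or_gt_of_ne hx with hx' | hx' <;> rcases lt_or_gt_of_ne hy with hy' | hy'
    · rw [abs_of_neg hx', abs_of_neg hy']; ring
    · exact absurd (mul_neg_of_neg_of_pos hx' hy') (not_lt.2 hs)
    · exact absurd (mul_neg_of_pos_of_neg hx' hy') (not_lt.2 hs)
    · rw [abs_of_pos hx', abs_of_pos hy']; ring
  rw [h2] at h1
  obtain ⟨n, hn⟩ : ∃ n, (φ y).natAbs = n + 1 :=
    ⟨(φ y).natAbs - 1, by have := Int.natAbs_pos.2 hy; omega⟩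
  have h3 := ext_diag hφ hD hxy n
  have h4 := h0 _ h1 (y ^ (φ x).natAbs * y ^ (n + 1))
  have e1 : x ^ (φ y).natAbs * y⁻¹ ^ (φ x).natAbs * (y ^ (φ x).natAbs * y ^ (n + 1)) =
      x ^ (n + 1) * y ^ (n + 1) := by
    rw [hn, inv_pow]
    group
  rw [e1, ← pow_add, hφ.pow] at h4
  rw [h4] at h3
  have h5 : ((φ x).natAbs : ℤ) * φ y = (n + 1) * φ x := by
    have h6 : (((φ y).natAbs : ℕ) : ℤ) = n + 1 := by rw [hn]; push_cast; ring
    rw [h6] at h2
    linarith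
  have h8 : (|φ x| : ℤ) = ((φ x).natAbs : ℤ) := (Int.natCast_natAbs _).symm
  push_cast at h3
  rw [h8] at h3
  have h9 : ((n : ℤ) + 1) * (φ x + φ y) + D ≤ ((φ x).natAbs : ℤ) * φ y + (n + 1) * φ y := by
    linarith
  have h7 : ((n : ℤ) + 1) * (φ x + φ y) = (n + 1) * φ x + (n + 1) * φ y := by ring
  linarith

/-- **Hölder theorem for quasimorphisms**: an integer valued homogeneous quasimorphism which vanishes only on its kernel
is a homomorphism. -/
theorem qm_hom (hφ : ZQM φ) (h0 : ∀ g, φ g = 0 → ∀ u, φ (g * u) = φ u) (x y : H) :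
    φ (x * y) = φ x + φ y := by
  obtain ⟨D₀, hD₀⟩ := hφ.qm
  obtain ⟨D, ⟨⟨x₀, y₀⟩, hxy⟩, hmax⟩ := Int.exists_greatest_of_bdd
    (P := fun z => ∃ p : H × H, φ (p.1 * p.2) - φ p.1 - φ p.2 = z)
    ⟨D₀, fun z ⟨p, hp⟩ => by rw [← hp]; exact (abs_le.1 (hD₀ p.1 p.2)).2⟩ ⟨_, (1, 1), rfl⟩
  have hD : ∀ u v, φ (u * v) - φ u - φ v ≤ D := fun u v => hmax _ ⟨(u, v), rfl⟩
  simp only at hxy
  have hneg : ∀ u v, -(φ (u * v) - φ u - φ v) ≤ D := by
    intro u v
    have h1 := hD v⁻¹ u⁻¹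
    rw [← mul_inv_rev, hφ.inv, hφ.inv, hφ.inv] at h1
    linarith
  have key : D ≤ 0 := by
    by_contra hpos
    push Not at hpos
    -- the three extremal pairs
    have p1 : φ (y₀ * (x₀ * y₀)⁻¹) - φ y₀ - φ (x₀ * y₀)⁻¹ = D := by
      have e : y₀ * (x₀ * y₀)⁻¹ = x₀⁻¹ := by group
      rw [e, hφ.inv, hφ.inv]
      linarith
    have p2 : φ ((x₀ * y₀)⁻¹ * x₀) - φ (x₀ * y₀)⁻¹ - φ x₀ = D := by
      have e : (x₀ * y₀)⁻¹ * x₀ = y₀⁻¹ := by group
      rw [e, hφ.inv, hφ.inv]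
      linarith
    rcases le_total 0 (φ x₀ * φ y₀) with h | h
    · exact ext_same hφ h0 hD hxy hpos h
    · rcases le_total 0 (φ y₀ * φ (x₀ * y₀)⁻¹) with h' | h'
      · exact ext_same hφ h0 hD p1 hpos h'
      · refine ext_same hφ h0 hD p2 hpos ?_
        by_contra h''
        push Not at h''
        -- three products cannot all be nonpositive with one negative
        have h3 : 0 ≤ (φ x₀ * φ y₀) * (φ y₀ * φ (x₀ * y₀)⁻¹) := mul_nonneg_of_nonpos_of_nonpos h h'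
        have h4 : (φ x₀ * φ y₀) * (φ y₀ * φ (x₀ * y₀)⁻¹) =
            φ y₀ ^ 2 * (φ (x₀ * y₀)⁻¹ * φ x₀) := by ring
        rw [h4] at h3
        have h5 : φ y₀ ^ 2 * (φ (x₀ * y₀)⁻¹ * φ x₀) ≤ 0 :=
          mul_nonpos_of_nonneg_of_nonpos (sq_nonneg _) h''.le
        have h6 : φ y₀ = 0 := by
          have h7 : φ y₀ ^ 2 * (φ (x₀ * y₀)⁻¹ * φ x₀) = 0 := le_antisymm h5 h3
          rcases mul_eq_zero.1 h7 with h8 | h8
          · exact pow_eq_zero_iff (two_ne_zero) |>.1 h8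
          · exact absurd h8 h''.ne
        have h9 := h0 y₀ h6 x₀
        rw [hφ.cyc x₀ y₀, h9, h6] at hxy
        linarith
  have h1 := hD x y
  have h2 := hneg x y
  linarith

end Pool.Agent.H11.NL
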