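import Pool.Agent.H11.NL.Qm

/-!
# Real quasimorphisms: homogenisation and the case of discrete values
-/

set_option autoImplicit false

open Filter Topology

namespace Pool.Agent.H11.NL

variable {H : Type*} [Group H]

/-- homogenisation of a quasimorphism -/
theorem exists_hom {f : H → ℝ} {D : ℝ} (hf : ∀ x y, |f (x * y) - f x - f y| ≤ D) :
    ∃ φ : H → ℝ, ∀ x (n : ℕ), |n * φ x - f (x ^ n)| ≤ D := by
  have key : ∀ (g : H → ℝ), (∀ x y, |g (x * y) - g x - g y| ≤ D) → ∀ x, ∃ l : ℝ,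
      Tendsto (fun n : ℕ => g (x ^ n) / n) atTop (𝓝 l) ∧ ∀ n : ℕ, n * l ≤ g (x ^ n) + D := by
    intro g hg x
    have hD : 0 ≤ D := (abs_nonneg _).trans (hg 1 1)
    have hsub : Subadditive fun n : ℕ => g (x ^ n) + D := by
      intro m n
      have h1 := (abs_le.1 (hg (x ^ m) (x ^ n))).2
      rw [← pow_add] at h1
      show g (x ^ (m + n)) + D ≤ g (x ^ m) + D + (g (x ^ n) + D)
      linarith
    have hlow : ∀ n : ℕ, -(n * (|g x| + D)) - D ≤ g (x ^ n) := by
      intro n
      induction n with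
      | zero =>
        have h1 := (abs_le.1 (hg 1 1)).2
        simp only [mul_one] at h1
        simp only [pow_zero, Nat.cast_zero, zero_mul, neg_zero]
        linarith
      | succ n ih =>
        have h1 := (abs_le.1 (hg (x ^ n) x)).1
        rw [← pow_succ] at h1
        have h2 := neg_abs_le (g x)
        push_cast
        linarith
    have hbdd : BddBelow (Set.range fun n : ℕ => (g (x ^ n) + D) / n) := by
      refine ⟨-(|g x| + D), ?_⟩
      rintro _ ⟨n, rfl⟩
      simp only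
      rcases Nat.eq_zero_or_pos n with h | h
      · subst h
        simp only [Nat.cast_zero, div_zero]
        have := abs_nonneg (g x)
        linarith
      · have hn : (0 : ℝ) < n := Nat.cast_pos.2 h
        rw [le_div_iff₀ hn]
        have := hlow n
        linarith
    have hlim := hsub.tendsto_lim hbdd
    refine ⟨hsub.lim, ?_, fun n => ?_⟩
    · have h1 : Tendsto (fun n : ℕ => D / (n : ℝ)) atTop (𝓝 0) := tendsto_const_div_atTop_nhds_zero_nat D
      have h2 := hlim.sub h1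
      rw [sub_zero] at h2
      refine h2.congr fun n => ?_
      ring
    · rcases Nat.eq_zero_or_pos n with h | h
      · subst h
        have h1 := (abs_le.1 (hg 1 1)).2
        simp only [mul_one] at h1
        simp only [pow_zero, Nat.cast_zero, zero_mul]
        have h3 := (abs_le.1 (hg 1 1)).1
        simp only [mul_one] at h3
        linarith
      · have hn : (0 : ℝ) < n := Nat.cast_pos.2 h
        have h1 := hsub.lim_le_div hbdd h.ne'
        rw [le_div_iff₀ hn] at h1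
        linarith
  choose φ hφ using key f hf
  refine ⟨φ, fun x n => ?_⟩
  obtain ⟨l, hl1, hl2⟩ := key (fun y => -f y) (fun x y => by
    have := hf x y
    rw [← abs_neg]
    convert this using 2
    ring) x
  have hl : l = -φ x := by
    refine tendsto_nhds_unique hl1 ?_
    refine (hφ x).1.neg.congr fun n => ?_
    ring
  have h1 := (hφ x).2 n
  have h2 := hl2 n
  rw [hl] at h2
  rw [abs_le]
  constructor <;> linarith

/-- a real number all of whose multiples are bounded is zero -/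
lemma real_zero {t C : ℝ} (h : ∀ n : ℕ, n * |t| ≤ C) : t = 0 := by
  by_contra ht
  have h1 : 0 < |t| := abs_pos.2 ht
  obtain ⟨n, hn⟩ := exists_nat_gt (C / |t|)
  have h2 := h n
  rw [div_lt_iff₀ h1] at hn
  linarith

/-- properties of the homogenisation -/
lemma hom_pow {f φ : H → ℝ} {D : ℝ} (h : ∀ x (n : ℕ), |n * φ x - f (x ^ n)| ≤ D) (x : H) (k : ℕ) :
    φ (x ^ k) = k * φ x := by
  have : φ (x ^ k) - k * φ x = 0 := by
    refine real_zero (C := 2 * D) fun n => ?_
    have h1 := h (x ^ k) n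
    have h2 := h x (k * n)
    rw [pow_mul] at h2
    push_cast at h2
    calc (n : ℝ) * |φ (x ^ k) - k * φ x| = |(n : ℝ)| * |φ (x ^ k) - k * φ x| := by
          rw [abs_of_nonneg (Nat.cast_nonneg n : (0 : ℝ) ≤ n)]
      _ = |(n * φ (x ^ k) - f ((x ^ k) ^ n)) - (k * n * φ x - f ((x ^ k) ^ n))| := by
          rw [← abs_mul]; congr 1; ring
      _ ≤ |n * φ (x ^ k) - f ((x ^ k) ^ n)| + |k * n * φ x - f ((x ^ k) ^ n)| := abs_sub _ _
      _ ≤ 2 * D := by linarith
  linarith

lemma hom_qm {f φ : H → ℝ} {D : ℝ} (hf : ∀ x y, |f (x * y) - f x - f y| ≤ D)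
    (h : ∀ x (n : ℕ), |n * φ x - f (x ^ n)| ≤ D) (x y : H) : |φ (x * y) - φ x - φ y| ≤ 4 * D := by
  have h1 := h (x * y) 1
  have h2 := h x 1
  have h3 := h y 1
  have h4 := hf x y
  simp only [Nat.cast_one, one_mul, pow_one] at h1 h2 h3
  rw [abs_le] at *
  constructor <;> linarith [h1.1, h1.2, h2.1, h2.2, h3.1, h3.2, h4.1, h4.2]

/-- discrete values -/
theorem real_hom {φ : H → ℝ} {D lam : ℝ} (hqm : ∀ x y, |φ (x * y) - φ x - φ y| ≤ D)
    (hpow : ∀ x (n : ℕ), φ (x ^ n) = n * φ x) (hlam : 0 < lam) (hval : ∀ g, ∃ k : ℤ, φ g = k * lam)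
    (h0 : ∀ g, φ g = 0 → ∀ u, φ (g * u) = φ u) (x y : H) : φ (x * y) = φ x + φ y := by
  choose ψ hψ using hval
  have hz : ZQM ψ := by
    refine ⟨⟨⌈D / lam⌉, fun x y => ?_⟩, fun x n => ?_⟩
    · have h1 := hqm x y
      rw [hψ, hψ, hψ] at h1
      have h2 : ((|ψ (x * y) - ψ x - ψ y| : ℤ) : ℝ) ≤ D / lam := by
        rw [le_div_iff₀ hlam]
        push_cast
        calc |(ψ (x * y) : ℝ) - ψ x - ψ y| * lam = |((ψ (x * y) : ℝ) - ψ x - ψ y) * lam| := by
              rw [abs_mul, abs_of_pos hlam]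
          _ = |(ψ (x * y) : ℝ) * lam - ψ x * lam - ψ y * lam| := by congr 1; ring
          _ ≤ D := h1
      exact_mod_cast h2.trans (Int.le_ceil _)
    · have h1 := hpow x n
      rw [hψ, hψ] at h1
      have h2 : (ψ (x ^ n) : ℝ) = n * ψ x := by
        have h3 : ((ψ (x ^ n) : ℝ) - n * ψ x) * lam = 0 := by linarith
        rcases mul_eq_zero.1 h3 with h4 | h4
        · linarith
        · exact absurd h4 hlam.ne'
      exact_mod_cast h2
  have h1 := qm_hom hz (fun g hg u => by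
    have h2 : φ g = 0 := by rw [hψ, hg]; simp
    have h3 := h0 g h2 u
    rw [hψ, hψ] at h3
    exact_mod_cast mul_right_cancel₀ hlam.ne' h3) x y
  rw [hψ, hψ, hψ, h1]
  push_cast
  ring

/-- a group with property (C) and an unbounded quasimorphism is cyclic -/
theorem cyclic_of_qm {G : Type*} [Group G] {a : G} (hC : ∀ g : G, ∃ k : ℤ, IsConj g (a ^ k))
    {f : G → ℝ} {D : ℝ} (hf : ∀ x y, |f (x * y) - f x - f y| ≤ D) (hu : ∀ C : ℝ, ∃ g, C < |f g|) (g : G) :
    ∃ k : ℤ, g = a ^ k := by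
  obtain ⟨φ, hφ⟩ := exists_hom hf
  have hpow := hom_pow hφ
  have hqm := hom_qm hf hφ
  have h1 : φ 1 = 0 := by simpa using hpow 1 0
  have hinv : ∀ x, φ x⁻¹ = -φ x := by
    intro x
    have : φ x + φ x⁻¹ = 0 := by
      refine real_zero (C := 4 * D) fun n => ?_
      have h2 := hqm (x ^ n) (x⁻¹ ^ n)
      rw [inv_pow, mul_inv_cancel, h1, ← inv_pow, hpow, hpow] at h2
      calc (n : ℝ) * |φ x + φ x⁻¹| = |(n : ℝ)| * |φ x + φ x⁻¹| := by
            rw [abs_of_nonneg (Nat.cast_nonneg n : (0 : ℝ) ≤ n)]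
        _ = |0 - n * φ x - n * φ x⁻¹| := by rw [← abs_mul, ← abs_neg]; congr 1; ring
        _ ≤ 4 * D := h2
    linarith
  have hzpow : ∀ x (k : ℤ), φ (x ^ k) = k * φ x := by
    intro x k
    obtain ⟨n, rfl | rfl⟩ := k.eq_nat_or_neg
    · rw [zpow_natCast, hpow]; simp
    · rw [zpow_neg, zpow_natCast, hinv, hpow]; push_cast; ring
  have hconj : ∀ u x, φ (u * x * u⁻¹) = φ x := by
    intro u x
    have : φ (u * x * u⁻¹) - φ x = 0 := by
      refine real_zero (C := 8 * D) fun n => ?_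
      have h2 := hqm (u * x ^ n) u⁻¹
      have h3 := hqm u (x ^ n)
      have h4 : u * x ^ n * u⁻¹ = (u * x * u⁻¹) ^ n := (conj_pow).symm
      rw [h4, hpow, hinv] at h2
      rw [hpow] at h3
      calc (n : ℝ) * |φ (u * x * u⁻¹) - φ x| = |(n : ℝ)| * |φ (u * x * u⁻¹) - φ x| := by
            rw [abs_of_nonneg (Nat.cast_nonneg n : (0 : ℝ) ≤ n)]
        _ = |(n * φ (u * x * u⁻¹) - φ (u * x ^ n) - -φ u) + (φ (u * x ^ n) - φ u - n * φ x)| := by
            rw [← abs_mul]; congr 1; ring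
        _ ≤ |n * φ (u * x * u⁻¹) - φ (u * x ^ n) - -φ u| + |φ (u * x ^ n) - φ u - n * φ x| :=
            abs_add_le _ _
        _ ≤ 8 * D := by linarith
    linarith
  have hval : ∀ g, ∃ k : ℤ, φ g = k * φ a ∧ IsConj g (a ^ k) := by
    intro g
    obtain ⟨k, hk⟩ := hC g
    obtain ⟨c, hc⟩ := isConj_iff.1 hk
    refine ⟨k, ?_, hk⟩
    rw [← hzpow, ← hc, hconj]
  have ha : φ a ≠ 0 := by
    intro h
    obtain ⟨g, hg⟩ := hu D
    obtain ⟨k, hk, -⟩ := hval g
    rw [h, mul_zero] at hk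
    have h2 := hφ g 1
    rw [hk] at h2
    simp only [Nat.cast_one, one_mul, pow_one, zero_sub, abs_neg] at h2
    linarith
  have hz : ∀ g, φ g = 0 → g = 1 := by
    intro g hg
    obtain ⟨k, hk, hc⟩ := hval g
    rw [hg] at hk
    have h3 : k = 0 := by
      rcases mul_eq_zero.1 hk.symm with h | h
      · exact_mod_cast h
      · exact absurd h ha
    rw [h3, zpow_zero] at hc
    exact isConj_one_left.1 hc
  have hadd := real_hom hqm hpow (abs_pos.2 ha) (fun g => by
    obtain ⟨k, hk, -⟩ := hval g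
    rcases abs_choice (φ a) with h | h
    · exact ⟨k, by rw [h, hk]⟩
    · exact ⟨-k, by rw [h, hk]; push_cast; ring⟩) (fun g hg u => by rw [hz g hg, one_mul])
  have hcomm : ∀ x y : G, x * y = y * x := by
    intro x y
    have h3 : φ (x * y * (y * x)⁻¹) = 0 := by
      rw [hadd, hinv, hadd, hadd]; ring
    exact mul_inv_eq_one.1 (hz _ h3)
  obtain ⟨k, hk⟩ := hC g
  obtain ⟨c, hc⟩ := isConj_iff.1 hk
  refine ⟨k, ?_⟩
  rw [← hc, hcomm c g, mul_assoc, mul_inv_cancel, mul_one]

end Pool.Agent.H11.NL
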